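import Mathlib
import Pool.Agent.H39.Thread

set_option autoImplicit false

namespace Pool.Agent.Results.MP_b0da28_lc.NoContRed

theorem result : ∃ E : (ℕ → ℕ) → (ℕ → ℕ) → Prop,
    Equivalence E ∧ IsClosed {p : (ℕ → ℕ) × (ℕ → ℕ) | E p.1 p.2} ∧
    (∃ g : (ℕ → ℕ) → (ℕ → ℕ), @Measurable _ _ (borel (ℕ → ℕ)) (borel (ℕ → ℕ)) g ∧
      ∀ x y, E x y ↔ g x = g y) ∧
    ¬ ∃ f : (ℕ → ℕ) → (ℕ → ℕ → ℕ), Continuous f ∧
      ∀ x y, E x y ↔ Set.range (f x) = Set.range (f y) := by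
  obtain ⟨g, h1, h2, h3, h4⟩ := Pool.Agent.H39.Thread.exists_g
  refine ⟨fun x y => g x = g y, ⟨fun _ => rfl, Eq.symm, Eq.trans⟩, h4,
    ⟨g, ?_, fun _ _ => Iff.rfl⟩, ?_⟩
  · rwa [← BorelSpace.measurable_eq (α := ℕ → ℕ)]
  · rintro ⟨f, hf, h⟩
    obtain ⟨a, a', h5, h6, h7, h8⟩ := Pool.Agent.H39.Thread.collapse hf fun z hz =>
      (h _ _).1 ((h2 _ (Pool.Agent.H39.Thread.G_zero hz)).trans (h3 z hz).symm)
    exact h7 ((h2 a h5).symm.trans (((h _ _).2 h8).trans (h2 a' h6)))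

end Pool.Agent.Results.MP_b0da28_lc.NoContRed
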